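import Pool.Agent.Helper65.LG.Defs

/-! Packages L7 (the means) and L8 (the exponents). -/

set_option autoImplicit false

open Finset Filter Topology

namespace Pool.Agent.Helper33.LG

open Pool.Agent.Helper65.LG

theorem dd_pos (G : GMap) {i : ℕ} (hi : i < G.d) : 0 < dd G i := by
  unfold dd
  exact Nat.gcd_pos_of_pos_left _ (Int.natAbs_pos.mpr (G.hm i hi))

theorem dd_dvd (G : GMap) (i : ℕ) : dd G i ∣ (G.m i).natAbs := Nat.gcd_dvd_left _ _

theorem one_le_quot (G : GMap) {i : ℕ} (hi : i < G.d) :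
    (1:ℝ) ≤ |(G.m i : ℝ)| / dd G i := by
  have h1 : (0:ℝ) < dd G i := Nat.cast_pos.mpr (dd_pos G hi)
  rw [le_div_iff₀ h1, one_mul]
  have h2 : dd G i ≤ (G.m i).natAbs :=
    Nat.le_of_dvd (Int.natAbs_pos.mpr (G.hm i hi)) (dd_dvd G i)
  have h3 : ((G.m i).natAbs : ℝ) = |(G.m i : ℝ)| := by
    rw [Nat.cast_natAbs, Int.cast_abs]
  rw [← h3]
  exact_mod_cast h2

theorem mod_lt' (G : GMap) (B : ℕ × ℕ) : B.1 % G.d < G.d :=
  Nat.mod_lt _ (by have := G.hd; omega)

theorem f1_eq (G : GMap) (B : ℕ × ℕ) : f1 G B = f0 G B - f2 G B := by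
  unfold f1 f0 f2
  have h0 := mod_lt' G B
  have h1 : (dd G (B.1 % G.d) : ℝ) ≠ 0 := by
    have := dd_pos G h0
    positivity
  have h2 : (G.d : ℝ) ≠ 0 := by
    have := G.hd
    have h3 : 0 < G.d := by omega
    positivity
  have h3 : |(G.m (B.1 % G.d) : ℝ)| ≠ 0 := abs_ne_zero.mpr (Int.cast_ne_zero.mpr (G.hm _ h0))
  rw [← Real.log_div (div_ne_zero h3 h1) (div_ne_zero h2 h1)]
  congr 1
  field_simp

theorem f0_nonneg (G : GMap) (B : ℕ × ℕ) : 0 ≤ f0 G B :=
  Real.log_nonneg (one_le_quot G (mod_lt' G B))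

/-- L7 -/
theorem s_mean : S_mean := by
  intro G C ρ _ hρ
  constructor
  · exact Finset.sum_nonneg fun B hB => mul_nonneg (hρ.nonneg B hB) (f0_nonneg G B)
  · unfold mean
    rw [← Finset.sum_sub_distrib]
    exact Finset.sum_congr rfl fun B _ => by rw [f1_eq]; ring

open Classical in
theorem count_atTop (G : GMap) (C : Finset (ℕ × ℕ)) (hC : IsClass G C) :
    Tendsto (fun N : ℕ => (((Icc (-(N : ℤ)) N).filter (fun x => x ∈ SC G C)).card : ℝ))
      atTop atTop := by
  obtain ⟨B, hB⟩ := hC.ne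
  have hs := hC.state B hB
  have hd := G.hd
  have hq : 0 < G.d * B.2 := Nat.mul_pos (by omega) (by omega)
  rw [tendsto_atTop]
  intro b
  filter_upwards [eventually_ge_atTop (B.1 + G.d * B.2 * ⌈b⌉₊)] with N hN
  refine (Nat.le_ceil b).trans (Nat.cast_le.mpr ?_)
  refine Finset.le_card_of_inj_on_range (fun t : ℕ => ((B.1 + G.d * B.2 * t : ℕ) : ℤ)) ?_ ?_
  · intro t ht
    rw [Finset.mem_filter, Finset.mem_Icc]
    have h1 : B.1 + G.d * B.2 * t ≤ N :=
      le_trans (Nat.add_le_add_left (Nat.mul_le_mul_left _ ht.le) _) hN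
    refine ⟨⟨by omega, by exact_mod_cast h1⟩, B, hB, ?_⟩
    show ((B.1 + G.d * B.2 * t : ℕ) : ℤ) ≡ (B.1 : ℤ) [ZMOD ((G.d * B.2 : ℕ) : ℤ)]
    refine (Int.modEq_iff_dvd.mpr ⟨-(t : ℤ), ?_⟩)
    push_cast
    ring
  · intro s _ t _ h
    have h1 : B.1 + G.d * B.2 * s = B.1 + G.d * B.2 * t := by exact_mod_cast h
    exact Nat.eq_of_mul_eq_mul_left hq (Nat.add_left_cancel h1)

open Classical in
theorem AE_mono_large (G : GMap) (C : Finset (ℕ × ℕ)) (hC : IsClass G C) {E E' : Set ℤ}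
    (X : ℕ) (hE : AE G C E) (h : ∀ x ∈ E, (X : ℤ) < |x| → x ∈ E') : AE G C E' := by
  unfold AE at hE ⊢
  have hc := count_atTop G C hC
  have h2 : Tendsto (fun N : ℕ => ((2 * X + 1 : ℕ) : ℝ) /
      (((Icc (-(N : ℤ)) N).filter (fun x => x ∈ SC G C)).card : ℝ)) atTop (𝓝 0) :=
    hc.const_div_atTop _
  have h3 := hE.add h2
  rw [add_zero] at h3
  refine squeeze_zero (fun N => by positivity) (fun N => ?_) h3
  rw [← add_div]
  refine div_le_div_of_nonneg_right ?_ (Nat.cast_nonneg _)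
  rw [← Nat.cast_add]
  refine Nat.cast_le.mpr ?_
  have h4 : (Icc (-(N : ℤ)) N).filter (fun x => x ∈ SC G C ∧ x ∉ E') ⊆
      (Icc (-(N : ℤ)) N).filter (fun x => x ∈ SC G C ∧ x ∉ E) ∪ Icc (-(X : ℤ)) X := by
    intro x hx
    rw [Finset.mem_filter] at hx
    rw [Finset.mem_union, Finset.mem_filter]
    by_cases hxE : x ∈ E
    · right
      by_contra hn
      refine hx.2.2 (h x hxE ?_)
      by_contra hn2
      exact hn (Finset.mem_Icc.mpr (abs_le.mp (not_lt.mp hn2)))
    · exact Or.inl ⟨hx.1, hx.2.1, hxE⟩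
  refine (Finset.card_le_card h4).trans ((Finset.card_union_le _ _).trans ?_)
  refine Nat.add_le_add_left ?_ _
  rw [Int.card_Icc]
  omega

/-- a threshold for the logarithm -/
theorem large_log (L : ℝ) : ∃ X : ℕ, ∀ x : ℤ, (X : ℤ) < |x| → L ≤ Real.log |(x : ℝ)| ∧
    1 ≤ |(x : ℝ)| := by
  refine ⟨⌈Real.exp L⌉₊ + 1, fun x hx => ?_⟩
  have h1 : ((⌈Real.exp L⌉₊ + 1 : ℕ) : ℝ) < |(x : ℝ)| := by
    rw [← Int.cast_abs]
    exact_mod_cast hx
  push_cast at h1
  have h2 := Nat.le_ceil (Real.exp L)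
  have h3 : (0:ℝ) ≤ (⌈Real.exp L⌉₊ : ℝ) := Nat.cast_nonneg _
  refine ⟨?_, by linarith⟩
  rw [Real.le_log_iff_exp_le (by linarith)]
  linarith

theorem rpow_le_of_log {x y : ℝ} (hx : 0 < x) (hy : 0 < y) {θ : ℝ}
    (h : Real.log y ≤ θ * Real.log x) : y ≤ x ^ θ := by
  rw [Real.rpow_def_of_pos hx, ← Real.exp_log hy]
  refine Real.exp_le_exp.mpr ?_
  linarith [mul_comm θ (Real.log x)]

theorem le_rpow_of_log {x y : ℝ} (hx : 0 < x) (hy : 0 < y) {θ : ℝ}
    (h : θ * Real.log x ≤ Real.log y) : x ^ θ ≤ y := by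
  rw [Real.rpow_def_of_pos hx, ← Real.le_log_iff_exp_le hy]
  linarith [mul_comm θ (Real.log x)]

/-- L8 -/
theorem s_exp (hlaw : S_law) (hmean : S_mean) : S_exp := by
  intro G C ρ hC hρ
  obtain ⟨hb, hμ⟩ := hmean G C ρ hC hρ
  set b := mean C ρ (f0 G) with hbdef
  set h := mean C ρ (f2 G) with hhdef
  set μ := mean C ρ (f1 G) with hμdef
  constructor
  · intro hneg θ hθ
    have hh : 0 < h := by linarith
    have hc : 0 < θ * h - b := by linarith
    -- the choice of epsilon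
    set ε : ℝ := min (min 1 h) ((θ * h - b) / (2 * (h - μ))) with hε
    have hhμ : 0 < 2 * (h - μ) := by linarith
    have hε0 : 0 < ε := lt_min (lt_min one_pos hh) (div_pos hc hhμ)
    have hε1 : ε ≤ 1 := (min_le_left _ _).trans (min_le_left _ _)
    have hε2 : ε ≤ h := (min_le_left _ _).trans (min_le_right _ _)
    have hε3 : ε * (2 * (h - μ)) ≤ θ * h - b := by
      rw [← le_div_iff₀ hhμ]
      exact min_le_right _ _
    obtain ⟨X, hX⟩ := large_log (2 * h * (-μ) / (θ * h - b))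
    refine AE_mono_large G C hC X (hlaw G C ρ hC hρ ε hε0) fun x hx hxX => ?_
    obtain ⟨hL, h1x⟩ := hX x hxX
    set L := Real.log |(x : ℝ)| with hLdef
    have hL0 : 0 ≤ L := Real.log_nonneg h1x
    have hkn : 0 ≤ (1 - ε) * L / h := by
      have : 0 ≤ 1 - ε := by linarith
      positivity
    set k : ℕ := ⌊(1 - ε) * L / h⌋₊ with hk
    have hk1 : (k : ℝ) ≤ (1 - ε) * L / h := Nat.floor_le hkn
    have hk2 : (1 - ε) * L / h - 1 < k := Nat.sub_one_lt_floor _
    have hk1' : (k : ℝ) * h ≤ (1 - ε) * L := by rwa [le_div_iff₀ hh] at hk1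
    have hk2' : (1 - ε) * L - h < k * h := by
      have := mul_lt_mul_of_pos_right hk2 hh
      rwa [sub_mul, div_mul_cancel₀ _ hh.ne', one_mul] at this
    have hk3 : ε * k ≤ L := by
      have h1 : ε * k ≤ h * k := mul_le_mul_of_nonneg_right hε2 (Nat.cast_nonneg _)
      have h2 : 0 ≤ ε * L := mul_nonneg hε0.le hL0
      nlinarith
    obtain ⟨hne, hab⟩ := hx k hk1' hk3
    refine ⟨k, rpow_le_of_log (by linarith) (abs_pos.mpr (Int.cast_ne_zero.mpr hne)) ?_⟩
    have hup := (abs_le.mp hab).2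
    -- multiply by h
    have hfin : h * Real.log |(((T G)^[k] x : ℤ) : ℝ)| ≤ h * (θ * L) := by
      have e1 : h * Real.log |(((T G)^[k] x : ℤ) : ℝ)| ≤ h * (L + k * μ + ε * L) :=
        mul_le_mul_of_nonneg_left (by linarith) hh.le
      have e2 : (k * h) * μ ≤ ((1 - ε) * L - h) * μ :=
        mul_le_mul_of_nonpos_right hk2'.le hneg.le
      have e3 : 2 * h * (-μ) ≤ L * (θ * h - b) := by
        rwa [div_le_iff₀ hc] at hL
      have e4 : ε * (2 * (h - μ)) * L ≤ (θ * h - b) * L := mul_le_mul_of_nonneg_right hε3 hL0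
      have e5 : h * (L + k * μ + ε * L) ≤ h * L + ((1 - ε) * L - h) * μ + ε * h * L := by
        nlinarith
      have e6 : b = μ + h := by linarith
      rw [e6] at e3 e4
      nlinarith
    exact le_of_mul_le_mul_left hfin hh
  · intro hpos θ hθ
    rcases lt_or_ge 0 h with hh | hh
    · have hc : 0 < b - θ * h := by linarith
      have hbpos : 0 < b := by linarith
      set ε : ℝ := min (min 1 h) ((b - θ * h) / (2 * b)) with hε
      have hε0 : 0 < ε := lt_min (lt_min one_pos hh) (div_pos hc (by linarith))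
      have hε1 : ε ≤ 1 := (min_le_left _ _).trans (min_le_left _ _)
      have hε2 : ε ≤ h := (min_le_left _ _).trans (min_le_right _ _)
      have hε3 : ε * (2 * b) ≤ b - θ * h := by
        rw [← le_div_iff₀ (by linarith)]
        exact min_le_right _ _
      obtain ⟨X, hX⟩ := large_log (2 * h * μ / (b - θ * h))
      refine AE_mono_large G C hC X (hlaw G C ρ hC hρ ε hε0) fun x hx hxX => ?_
      obtain ⟨hL, h1x⟩ := hX x hxX
      set L := Real.log |(x : ℝ)| with hLdef
      have hL0 : 0 ≤ L := Real.log_nonneg h1x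
      have hkn : 0 ≤ (1 - ε) * L / h := by
        have : 0 ≤ 1 - ε := by linarith
        positivity
      set k : ℕ := ⌊(1 - ε) * L / h⌋₊ with hk
      have hk1 : (k : ℝ) ≤ (1 - ε) * L / h := Nat.floor_le hkn
      have hk2 : (1 - ε) * L / h - 1 < k := Nat.sub_one_lt_floor _
      have hk1' : (k : ℝ) * h ≤ (1 - ε) * L := by rwa [le_div_iff₀ hh] at hk1
      have hk2' : (1 - ε) * L - h < k * h := by
        have := mul_lt_mul_of_pos_right hk2 hh
        rwa [sub_mul, div_mul_cancel₀ _ hh.ne', one_mul] at this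
      have hk3 : ε * k ≤ L := by
        have h1 : ε * k ≤ h * k := mul_le_mul_of_nonneg_right hε2 (Nat.cast_nonneg _)
        have h2 : 0 ≤ ε * L := mul_nonneg hε0.le hL0
        nlinarith
      obtain ⟨hne, hab⟩ := hx k hk1' hk3
      refine ⟨k, le_rpow_of_log (by linarith) (abs_pos.mpr (Int.cast_ne_zero.mpr hne)) ?_⟩
      have hlow := (abs_le.mp hab).1
      have hfin : h * (θ * L) ≤ h * Real.log |(((T G)^[k] x : ℤ) : ℝ)| := by
        have e1 : h * (L + k * μ - ε * L) ≤ h * Real.log |(((T G)^[k] x : ℤ) : ℝ)| :=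
          mul_le_mul_of_nonneg_left (by linarith) hh.le
        have e2 : ((1 - ε) * L - h) * μ ≤ (k * h) * μ :=
          mul_le_mul_of_nonneg_right hk2'.le hpos.le
        have e3 : 2 * h * μ ≤ L * (b - θ * h) := by
          rwa [div_le_iff₀ hc] at hL
        have e4 : ε * (2 * b) * L ≤ (b - θ * h) * L := mul_le_mul_of_nonneg_right hε3 hL0
        have e5 : h * L + ((1 - ε) * L - h) * μ - ε * h * L ≤ h * (L + k * μ - ε * L) := by
          nlinarith
        have e6 : b = μ + h := by linarith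
        rw [e6] at e3 e4
        nlinarith
      exact le_of_mul_le_mul_left hfin hh
    · -- `h ≤ 0`
      set ε : ℝ := min (1/2) (μ / (|θ| + 1)) with hε
      have ht : 0 < |θ| + 1 := by positivity
      have hε0 : 0 < ε := lt_min (by norm_num) (div_pos hpos ht)
      have hε1 : ε ≤ 1/2 := min_le_left _ _
      have hε2 : ε * (|θ| + 1) ≤ μ := by
        rw [← le_div_iff₀ ht]
        exact min_le_right _ _
      obtain ⟨X, hX⟩ := large_log (2 * μ)
      refine AE_mono_large G C hC X (hlaw G C ρ hC hρ ε hε0) fun x hx hxX => ?_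
      obtain ⟨hL, h1x⟩ := hX x hxX
      set L := Real.log |(x : ℝ)| with hLdef
      have hL0 : 0 ≤ L := Real.log_nonneg h1x
      set k : ℕ := ⌊L / ε⌋₊ with hk
      have hk1 : (k : ℝ) ≤ L / ε := Nat.floor_le (by positivity)
      have hk2 : L / ε - 1 < k := Nat.sub_one_lt_floor _
      have hk3 : ε * k ≤ L := by
        rw [le_div_iff₀ hε0] at hk1
        linarith
      have hk4 : L - ε < ε * k := by
        have := mul_lt_mul_of_pos_right hk2 hε0
        rw [sub_mul, div_mul_cancel₀ _ hε0.ne', one_mul] at this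
        linarith
      have hk5 : (k : ℝ) * h ≤ (1 - ε) * L := by
        have h1 : (k : ℝ) * h ≤ 0 := mul_nonpos_of_nonneg_of_nonpos (Nat.cast_nonneg _) hh
        have h2 : 0 ≤ (1 - ε) * L := mul_nonneg (by linarith) hL0
        linarith
      obtain ⟨hne, hab⟩ := hx k hk5 hk3
      refine ⟨k, le_rpow_of_log (by linarith) (abs_pos.mpr (Int.cast_ne_zero.mpr hne)) ?_⟩
      have hlow := (abs_le.mp hab).1
      -- `k μ ≥ k ε (|θ| + 1) ≥ (L - ε)(|θ| + 1)`
      have e1 : (k : ℝ) * (ε * (|θ| + 1)) ≤ k * μ :=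
        mul_le_mul_of_nonneg_left hε2 (Nat.cast_nonneg _)
      have e2 : (L - ε) * (|θ| + 1) ≤ (ε * k) * (|θ| + 1) :=
        mul_le_mul_of_nonneg_right hk4.le ht.le
      have e3 : θ * L ≤ |θ| * L := mul_le_mul_of_nonneg_right (le_abs_self θ) hL0
      nlinarith

end Pool.Agent.Helper33.LG
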